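import Pool.Agent.H88.L.TH125.Gal.Pub

/-!
# Polarized varieties with a nodal reduction and their products: definitions
-/

open CategoryTheory AlgebraicGeometry

universe u v w

namespace Pool.Agent.TH125.Gal

open Pool.Agent.H914 Pool.Agent.H914.VarClass Pool.Agent.H914.VarClass.Obj
  Pool.Agent.H914.WeilCohomology Pool.Agent.H281R3.HT

variable {k : Type u} [Field k] {𝒱 : VarClass k} {ops : CycleOps 𝒱}

/-- The divisor `D` on `X` satisfies the hard Lefschetz theorem and the standard conjectures of
Lefschetz and of Hodge type. -/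
structure IsPolarization (W : WeilCohomology.{u, v} ops) (X : 𝒱.Obj) (D : X.Cycles) : Prop where
  div : X.IsCyc 1 D
  hard : HardLefschetz W X D
  lefschetz : LefschetzB W X D
  hodge : HodgeType W X D

/-- The product `P × (P × ( ⋯ × P))` of `n + 1` copies of `P`. -/
noncomputable def polPow (ops : CycleOps 𝒱) (P : Polarized 𝒱) : ℕ → Polarized 𝒱
  | 0 => P
  | n + 1 => P.prod ops (polPow ops P n)

/-- The product `P i₁ ^ (n₁ + 1) × (P i₂ ^ (n₂ + 1) × (⋯ × Z))` for the list of the `(i, n)`. -/
noncomputable def tower (ops : CycleOps 𝒱) {ι : Type} (P : ι → Polarized 𝒱) (Z : Polarized 𝒱) :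
    List (ι × ℕ) → Polarized 𝒱
  | [] => Z
  | a :: L => (polPow ops (P a.1) a.2).prod ops (tower ops P Z L)

variable {W : WeilCohomology.{u, v} ops} {Γ : Type w} [Group Γ]

/-- The action of `Γ` on the cohomology of `X` has the formal properties of a Galois action. -/
def IsGaloisVar (χ : Γ →* W.Kˣ) (X : GVar W Γ) : Prop :=
  IsGaloisAct χ (W.gr X.X) X.X.dim (W.tr X.X) (algClasses W X.X) X.act

/-- The pull-back by the morphism `f` is equivariant. -/
def Equivariant {A B : GVar W Γ} (f : A.X ⟶ B.X) : Prop :=
  Intertwines (W.map f) B.act A.act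

/-- `C` is the product of `A` and `B`, with an action on the cohomology which is compatible with the
projections. -/
inductive IsProdVar (A B : GVar W Γ) : GVar W Γ → Prop
  | mk (υ : Γ →* (W.H (A.X.prod B.X) ≃ₐ[W.K] W.H (A.X.prod B.X))) :
      Equivariant (A := ⟨A.X.prod B.X, υ⟩) (B := A) (fst A.X B.X) →
      Equivariant (A := ⟨A.X.prod B.X, υ⟩) (B := B) (snd A.X B.X) →
      IsProdVar A B ⟨A.X.prod B.X, υ⟩

/-- The members of `G` are varieties with an action of `Γ` on the cohomology which has the formal
properties of a Galois action, and `G` is closed under products. -/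
structure GaloisClass (χ : Γ →* W.Kˣ) (G : Set (GVar W Γ)) : Prop where
  galois : ∀ X ∈ G, IsGaloisVar χ X
  prod : ∀ A ∈ G, ∀ B ∈ G, ∃ C ∈ G, IsProdVar A B C

/-- `D` is a polarization of `X`, and the transcendental cohomology of `X` is in the middle degree
and irreducible under all subgroups of finite index. -/
structure TransIrred (X : GVar W Γ) (D : X.X.Cycles) : Prop where
  polarization : IsPolarization W X.X D
  middle : transcendental W X.X ≤ W.gr X.X X.X.dim
  irreducible : IrredAct X.act (transcendental W X.X)

/-- `g` acts on the transcendental cohomology of `X` by a Picard-Lefschetz formula. -/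
def PLVar (X : GVar W Γ) (g : Γ) : Prop :=
  PLAct (W.tr X.X) (transcendental W X.X) X.act g

/-- `g` acts trivially on the cohomology of `X`. -/
def TrivVar (X : GVar W Γ) (g : Γ) : Prop := TrivAct X.act g

/-- `Z` and the `X i` are members of the class `G`; the divisors `D i` on `X i` satisfy the hard
Lefschetz theorem and the standard conjectures of Lefschetz and of Hodge type; the transcendental
cohomology of `X i` is in the middle degree and irreducible under all subgroups of finite index; for
every `i` there is an element of `Γ` which acts on the transcendental cohomology of `X i` by a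
Picard-Lefschetz formula and trivially on the cohomology of `Z` and of the other `X j` and by `χ`;
if some `X i` has even dimension the coefficient field contains only finitely many `ζ + ζ⁻¹`,
`ζ` a root of unity. -/
structure NodalSystem (χ : Γ →* W.Kˣ) (G : Set (GVar W Γ)) {ι : Type} (X : ι → GVar W Γ)
    (D : ∀ i, (X i).X.Cycles) (Z : GVar W Γ) : Prop where
  galoisClass : GaloisClass χ G
  mem : ∀ i, X i ∈ G
  mem_base : Z ∈ G
  transIrred : ∀ i, TransIrred (X i) (D i)
  node : ∀ i, ∃ g : Γ, PLVar (X i) g ∧ χ g = 1 ∧ TrivVar Z g ∧ ∀ j, j ≠ i → TrivVar (X j) g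
  few : (∃ i, Even (X i).X.dim) → FewRoots W.K

/-- The product `X i₁ ^ (n₁ + 1) × (X i₂ ^ (n₂ + 1) × (⋯ × Z))` with the sum of the pull-backs of
the divisors. -/
noncomputable def nodalTower {ι : Type} (X : ι → GVar W Γ) (D : ∀ i, (X i).X.Cycles)
    (Z : GVar W Γ) (E : Z.X.Cycles) (L : List (ι × ℕ)) : Polarized 𝒱 :=
  tower ops (fun i => ⟨(X i).X, D i⟩) ⟨Z.X, E⟩ L

/-- The indices in the list are pairwise different, and `n + 1` is less than the dimension of the
transcendental cohomology of `X i` for the pairs `(i, n)` for which `X i` has even dimension. -/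
def Admissible {ι : Type} (X : ι → GVar W Γ) (L : List (ι × ℕ)) : Prop :=
  (L.map Prod.fst).Nodup ∧ ∀ a ∈ L, Even (X a.1).X.dim → a.2 + 1 < transRank W (X a.1).X

end Pool.Agent.TH125.Gal
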